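import Mathlib

/-!
Graceful labelings and alpha-labelings of finite graphs (MP_d9e2d7_co).
-/

namespace Pool.Agent.H79.Alpha

variable {V : Type*}

/-- `f` is a graceful labeling of `G`: with `q` the number of edges of `G`, the map `f` is
injective with values in `{0, 1, ..., q}`, and the values `|f x - f y|` over the edges `xy` are
exactly `1, 2, ..., q`. -/
def IsGracefulLabeling (G : SimpleGraph V) (f : V → ℕ) : Prop :=
  Function.Injective f ∧ (∀ v, f v ≤ G.edgeSet.ncard) ∧
    {d : ℕ | ∃ x y, G.Adj x y ∧ d = ((f x : ℤ) - (f y : ℤ)).natAbs} =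
      Set.Icc 1 G.edgeSet.ncard

/-- `f` is an alpha-labeling of `G`: a graceful labeling for which some `k` separates the two
endpoint labels of every edge. -/
def IsAlphaLabeling (G : SimpleGraph V) (f : V → ℕ) : Prop :=
  IsGracefulLabeling G f ∧
    ∃ k : ℕ, ∀ x y, G.Adj x y → (f x ≤ k ∧ k < f y) ∨ (f y ≤ k ∧ k < f x)

end Pool.Agent.H79.Alpha
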