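import Mathlib

/-!
The labels for `C_{4m+2} × P_b`, `b ≥ 5` odd, `m ≥ 2`, in sum form.
-/

namespace Pool.Agent.H79.Alpha

/-- first label of a column. -/
def g (b i : ℤ) : ℤ := i * b - (i + 1) / 2

/-- the labels for `b ≥ 5`. -/
def lab5 (m b i j : ℤ) : ℤ :=
  g b i + (j + i % 2) / 2 + (if 2 * m < i ∧ (i + j) % 2 = 0 then b else 0) +
    (if i = 2 * m - 1 then (if j = 0 then b - 1 else if j = 1 then -1 else if j = b - 1 then b
      else 0) else 0) +
    (if i = 2 * m then (if j ≤ b - 3 then 1 else if j = b - 2 then 4 - 3 * b else b) else 0)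

theorem lab5_lo (m b i j : ℤ) (h : i ≤ 2 * m - 2) :
    lab5 m b i j = i * b - (i + 1) / 2 + (j + i % 2) / 2 := by
  unfold lab5 g
  rw [if_neg (by omega), if_neg (by omega), if_neg (by omega)]
  ring

theorem lab5_hi0 (m b i j : ℤ) (h : 2 * m < i) (hp : (i + j) % 2 = 0) :
    lab5 m b i j = i * b - (i + 1) / 2 + (j + i % 2) / 2 + b := by
  unfold lab5 g
  rw [if_pos ⟨h, hp⟩, if_neg (by omega), if_neg (by omega)]
  ring

theorem lab5_hi1 (m b i j : ℤ) (h : 2 * m < i) (hp : (i + j) % 2 = 1) :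
    lab5 m b i j = i * b - (i + 1) / 2 + (j + i % 2) / 2 := by
  unfold lab5 g
  rw [if_neg (by omega), if_neg (by omega), if_neg (by omega)]
  ring

theorem lab5_c1 (m b j : ℤ) :
    lab5 m b (2 * m - 1) j = 2 * (m * b) - b - m + (j + 1) / 2 +
      (if j = 0 then b - 1 else if j = 1 then -1 else if j = b - 1 then b else 0) := by
  unfold lab5 g
  rw [if_neg (by omega), if_pos rfl, if_neg (show ¬ (2 * m - 1 = 2 * m) by omega)]
  have e1 : (2 * m - 1) * b = 2 * (m * b) - b := by ring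
  have e2 : (2 * m - 1 + 1) / 2 = m := by omega
  have e3 : (2 * m - 1) % 2 = 1 := by omega
  rw [e1, e2, e3]
  ring

theorem lab5_c (m b j : ℤ) :
    lab5 m b (2 * m) j = 2 * (m * b) - m + j / 2 +
      (if j ≤ b - 3 then 1 else if j = b - 2 then 4 - 3 * b else b) := by
  unfold lab5 g
  rw [if_neg (by omega), if_neg (by omega), if_pos rfl]
  have e1 : (2 * m) * b = 2 * (m * b) := by ring
  have e2 : (2 * m + 1) / 2 = m := by omega
  have e3 : (2 * m) % 2 = 0 := by omega
  rw [e1, e2, e3]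
  ring_nf

theorem lab5_cm2 (m b j : ℤ) :
    lab5 m b (2 * m - 2) j = 2 * (m * b) - 2 * b - m + 1 + j / 2 := by
  rw [lab5_lo m b _ j (by omega)]
  have e1 : (2 * m - 2) * b = 2 * (m * b) - 2 * b := by ring
  have e2 : (2 * m - 2 + 1) / 2 = m - 1 := by omega
  have e3 : (2 * m - 2) % 2 = 0 := by omega
  rw [e1, e2, e3]
  ring_nf

theorem lab5_cp1 (m b j : ℤ) :
    lab5 m b (2 * m + 1) j = 2 * (m * b) + b - m - 1 + (j + 1) / 2 +
      (if j % 2 = 1 then b else 0) := by
  have e1 : (2 * m + 1) * b = 2 * (m * b) + b := by ring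
  have e2 : (2 * m + 1 + 1) / 2 = m + 1 := by omega
  have e3 : (2 * m + 1) % 2 = 1 := by omega
  by_cases hj : j % 2 = 1
  · rw [lab5_hi0 m b _ j (by omega) (by omega), if_pos hj, e1, e2, e3]
    ring
  · rw [lab5_hi1 m b _ j (by omega) (by omega), if_neg hj, e1, e2, e3]
    ring

theorem lab5_last (m b j : ℤ) (hm : 1 ≤ m) :
    lab5 m b (4 * m + 1) j = 4 * (m * b) + b - 2 * m - 1 + (j + 1) / 2 +
      (if j % 2 = 1 then b else 0) := by
  have e1 : (4 * m + 1) * b = 4 * (m * b) + b := by ring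
  have e2 : (4 * m + 1 + 1) / 2 = 2 * m + 1 := by omega
  have e3 : (4 * m + 1) % 2 = 1 := by omega
  by_cases hj : j % 2 = 1
  · rw [lab5_hi0 m b _ j (by omega) (by omega), if_pos hj, e1, e2, e3]
    ring
  · rw [lab5_hi1 m b _ j (by omega) (by omega), if_neg hj, e1, e2, e3]
    ring

theorem lab5_zero (m b j : ℤ) (hm : 1 ≤ m) : lab5 m b 0 j = j / 2 := by
  rw [lab5_lo m b _ j (by omega)]
  norm_num

/-- an edge of the grid-with-wraparound, in coordinates. -/
def IsEdge (m b i j i' j' : ℤ) : Prop :=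
  0 ≤ i ∧ i < 4 * m + 2 ∧ 0 ≤ j ∧ j < b ∧ 0 ≤ i' ∧ i' < 4 * m + 2 ∧ 0 ≤ j' ∧ j' < b ∧
    ((i' = i ∧ j' = j + 1) ∨ (i' = i + 1 ∧ j' = j) ∨ (i = 4 * m + 1 ∧ i' = 0 ∧ j' = j))

theorem cover5_lo (m b t : ℤ) (hb : 5 ≤ b) (h0 : 0 ≤ t)
    (h1 : t < (2 * b - 1) * (2 * m - 2) + (b - 1)) :
    ∃ i j i' j', IsEdge m b i j i' j' ∧ lab5 m b i j + lab5 m b i' j' = t := by
  set i := t / (2 * b - 1) with hi
  set r := t % (2 * b - 1) with hr
  have hw : 0 < 2 * b - 1 := by omega
  have ht : t = (2 * b - 1) * i + r := by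
    rw [hi, hr]; exact (Int.mul_ediv_add_emod t (2 * b - 1)).symm
  have hr0 : 0 ≤ r := Int.emod_nonneg _ (by omega)
  have hr1 : r < 2 * b - 1 := Int.emod_lt_of_pos _ hw
  have hi0 : 0 ≤ i := Int.ediv_nonneg h0 (by omega)
  have hile : i ≤ 2 * m - 2 := by
    by_contra hcon
    push Not at hcon
    have : (2 * b - 1) * (2 * m - 2 + 1) ≤ (2 * b - 1) * i :=
      mul_le_mul_of_nonneg_left (by omega) (by omega)
    nlinarith
  have hX : (2 * b - 1) * i = 2 * (i * b) - i := by ring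
  by_cases hrb : r < b - 1
  · refine ⟨i, r, i, r + 1, ⟨hi0, by omega, hr0, by omega, hi0, by omega, by omega, by omega,
      Or.inl ⟨rfl, rfl⟩⟩, ?_⟩
    rw [lab5_lo m b i r hile, lab5_lo m b i (r + 1) hile, ht, hX]
    omega
  · have hile' : i + 1 ≤ 2 * m - 2 := by
      by_contra hcon
      have h2 : i = 2 * m - 2 := by omega
      rw [h2] at ht
      omega
    refine ⟨i, r - (b - 1), i + 1, r - (b - 1), ⟨hi0, by omega, by omega, by omega, by omega,
      by omega, by omega, by omega, Or.inr (Or.inl ⟨rfl, rfl⟩)⟩, ?_⟩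
    rw [lab5_lo m b i _ hile, lab5_lo m b (i + 1) _ hile', ht, hX,
      show (i + 1) * b = i * b + b by ring]
    omega

theorem cover5_hi (m b t : ℤ) (hb : 5 ≤ b)
    (h0 : (2 * b - 1) * (2 * m + 1) + b ≤ t)
    (h1 : t < (2 * b - 1) * (4 * m + 2)) :
    ∃ i j i' j', IsEdge m b i j i' j' ∧ lab5 m b i j + lab5 m b i' j' = t := by
  set i := (t - b) / (2 * b - 1) with hi
  set r := (t - b) % (2 * b - 1) with hr
  have hw : 0 < 2 * b - 1 := by omega
  have ht : t - b = (2 * b - 1) * i + r := by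
    rw [hi, hr]; exact (Int.mul_ediv_add_emod (t - b) (2 * b - 1)).symm
  have hr0 : 0 ≤ r := Int.emod_nonneg _ (by omega)
  have hr1 : r < 2 * b - 1 := Int.emod_lt_of_pos _ hw
  have hilo : 2 * m + 1 ≤ i := by
    rw [hi, Int.le_ediv_iff_mul_le hw]
    linarith
  have hile : i ≤ 4 * m + 1 := by
    by_contra hcon
    push Not at hcon
    have : (2 * b - 1) * (4 * m + 2) ≤ (2 * b - 1) * i :=
      mul_le_mul_of_nonneg_left (by omega) (by omega)
    linarith
  have hX : (2 * b - 1) * i = 2 * (i * b) - i := by ring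
  have htt : t = 2 * (i * b) - i + r + b := by rw [← hX]; linarith
  by_cases hrb : r < b - 1
  · refine ⟨i, r, i, r + 1, ⟨by omega, by omega, hr0, by omega, by omega, by omega, by omega,
      by omega, Or.inl ⟨rfl, rfl⟩⟩, ?_⟩
    by_cases hp : (i + r) % 2 = 0
    · rw [lab5_hi0 m b i r (by omega) hp, lab5_hi1 m b i (r + 1) (by omega) (by omega)]
      omega
    · rw [lab5_hi1 m b i r (by omega) (by omega), lab5_hi0 m b i (r + 1) (by omega) (by omega)]
      omega
  · have hile' : i + 1 ≤ 4 * m + 1 := by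
      by_contra hcon
      have h2 : i = 4 * m + 1 := by omega
      rw [h2] at ht
      nlinarith
    refine ⟨i, r - (b - 1), i + 1, r - (b - 1), ⟨by omega, by omega, by omega, by omega, by omega,
      by omega, by omega, by omega, Or.inr (Or.inl ⟨rfl, rfl⟩)⟩, ?_⟩
    by_cases hp : (i + (r - (b - 1))) % 2 = 0
    · rw [lab5_hi0 m b i _ (by omega) hp, lab5_hi1 m b (i + 1) _ (by omega) (by omega),
        show (i + 1) * b = i * b + b by ring]
      omega
    · rw [lab5_hi1 m b i _ (by omega) (by omega), lab5_hi0 m b (i + 1) _ (by omega) (by omega),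
        show (i + 1) * b = i * b + b by ring]
      omega

end Pool.Agent.H79.Alpha
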