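import Mathlib
import Pool.Agent.H79.Alpha.Defs
import Pool.Agent.H79.Alpha.Lab5

/-!
From a coordinate labelling to an alpha-labeling of the prism graph.
-/

open SimpleGraph

namespace Pool.Agent.H79.Alpha

/-- the prism graph. -/
abbrev Pr (m n : ℕ) : SimpleGraph (Fin (4 * m + 2) × Fin (2 * n + 1)) :=
  cycleGraph (4 * m + 2) □ pathGraph (2 * n + 1)

theorem fin_add_one_val {k : ℕ} (u : Fin (k + 2)) :
    ((u + 1 : Fin (k + 2)) : ℕ) = if (u : ℕ) = k + 1 then 0 else (u : ℕ) + 1 := by
  rw [Fin.val_add]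
  have h1 : ((1 : Fin (k + 2)) : ℕ) = 1 := by simp
  rw [h1]
  have := u.isLt
  split_ifs with h
  · rw [h]; simp
  · exact Nat.mod_eq_of_lt (by omega)

/-- at most `a (2b-1)` edges. -/
theorem edges_le (m n : ℕ) : (Pr m n).edgeSet.ncard ≤ (4 * m + 2) * (4 * n + 1) := by
  classical
  let f1 : Fin (4 * m + 2) × Fin (2 * n + 1) → Sym2 (Fin (4 * m + 2) × Fin (2 * n + 1)) :=
    fun p => s(p, (p.1 + 1, p.2))
  let f2 : Fin (4 * m + 2) × Fin (2 * n) → Sym2 (Fin (4 * m + 2) × Fin (2 * n + 1)) :=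
    fun p => s((p.1, p.2.castSucc), (p.1, p.2.succ))
  have hsub : (Pr m n).edgeSet ⊆ Set.range f1 ∪ Set.range f2 := by
    intro e he
    induction e using Sym2.ind with
    | _ x y =>
      rw [SimpleGraph.mem_edgeSet, SimpleGraph.boxProd_adj] at he
      obtain ⟨x1, x2⟩ := x
      obtain ⟨y1, y2⟩ := y
      rcases he with ⟨h1, h2⟩ | ⟨h1, h2⟩
      · left
        simp only at h2
        subst h2
        rw [SimpleGraph.cycleGraph_adj] at h1
        rcases h1 with h1 | h1
        · refine ⟨(y1, x2), ?_⟩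
          simp only [f1]
          have : y1 + 1 = x1 := by rw [← h1]; abel
          rw [this, Sym2.eq_swap]
        · refine ⟨(x1, x2), ?_⟩
          simp only [f1]
          have : x1 + 1 = y1 := by rw [← h1]; abel
          rw [this]
      · right
        simp only at h2
        subst h2
        rw [SimpleGraph.pathGraph_adj] at h1
        simp only at h1
        rcases h1 with h1 | h1
        · have pf : x2.val < 2 * n := by have := y2.isLt; omega
          refine ⟨(x1, ⟨x2.val, pf⟩), ?_⟩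
          have hA1 : (Fin.castSucc ⟨x2.val, pf⟩ : Fin (2 * n + 1)) = x2 := Fin.ext rfl
          have hA2 : (Fin.succ ⟨x2.val, pf⟩ : Fin (2 * n + 1)) = y2 := Fin.ext h1
          simp only [f2]
          rw [hA1, hA2]
        · have pf : y2.val < 2 * n := by have := x2.isLt; omega
          refine ⟨(x1, ⟨y2.val, pf⟩), ?_⟩
          have hA1 : (Fin.castSucc ⟨y2.val, pf⟩ : Fin (2 * n + 1)) = y2 := Fin.ext rfl
          have hA2 : (Fin.succ ⟨y2.val, pf⟩ : Fin (2 * n + 1)) = x2 := Fin.ext h1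
          simp only [f2]
          rw [hA1, hA2, Sym2.eq_swap]
  have h1 : (Set.range f1).ncard ≤ (4 * m + 2) * (2 * n + 1) := by
    rw [← Set.image_univ]
    refine (Set.ncard_image_le Set.finite_univ).trans ?_
    rw [Set.ncard_univ, Nat.card_eq_fintype_card, Fintype.card_prod, Fintype.card_fin,
      Fintype.card_fin]
  have h2 : (Set.range f2).ncard ≤ (4 * m + 2) * (2 * n) := by
    rw [← Set.image_univ]
    refine (Set.ncard_image_le Set.finite_univ).trans ?_
    rw [Set.ncard_univ, Nat.card_eq_fintype_card, Fintype.card_prod, Fintype.card_fin,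
      Fintype.card_fin]
  calc (Pr m n).edgeSet.ncard ≤ (Set.range f1 ∪ Set.range f2).ncard :=
        Set.ncard_le_ncard hsub (Set.toFinite _)
    _ ≤ (Set.range f1).ncard + (Set.range f2).ncard := Set.ncard_union_le _ _
    _ ≤ (4 * m + 2) * (2 * n + 1) + (4 * m + 2) * (2 * n) := add_le_add h1 h2
    _ = (4 * m + 2) * (4 * n + 1) := by ring

theorem assemble (m n : ℕ) (L : ℤ → ℤ → ℤ) (kA kB : ℤ)
    (hk : kA + kB + 1 = (4 * m + 2) * (4 * n + 1)) (hkA : 0 ≤ kA)
    (hA : ∀ i j : ℤ, 0 ≤ i → i < 4 * m + 2 → 0 ≤ j → j < 2 * n + 1 → (i + j) % 2 = 0 →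
      0 ≤ L i j ∧ L i j ≤ kA)
    (hB : ∀ i j : ℤ, 0 ≤ i → i < 4 * m + 2 → 0 ≤ j → j < 2 * n + 1 → (i + j) % 2 = 1 →
      0 ≤ L i j ∧ L i j ≤ kB)
    (hinj : ∀ i j i' j' : ℤ, 0 ≤ j → j < 2 * n + 1 → 0 ≤ j' → j' < 2 * n + 1 →
      (i + j) % 2 = (i' + j') % 2 → L i j = L i' j' → i = i' ∧ j = j')
    (hcov : ∀ t : ℤ, 0 ≤ t → t < (4 * m + 2) * (4 * n + 1) →
      ∃ i j i' j', IsEdge m (2 * n + 1) i j i' j' ∧ L i j + L i' j' = t) :
    ∃ f : Fin (4 * m + 2) × Fin (2 * n + 1) → ℕ, IsAlphaLabeling (Pr m n) f := by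
  classical
  set q : ℤ := (4 * m + 2) * (4 * n + 1) with hq
  set qn : ℕ := (4 * m + 2) * (4 * n + 1) with hqn
  have hqq : (qn : ℤ) = q := by rw [hqn, hq]; push_cast; ring
  let F : Fin (4 * m + 2) × Fin (2 * n + 1) → ℤ := fun x =>
    if ((x.1 : ℤ) + (x.2 : ℤ)) % 2 = 0 then L x.1 x.2 else q - L x.1 x.2
  let f : Fin (4 * m + 2) × Fin (2 * n + 1) → ℕ := fun x => (F x).toNat
  have rng : ∀ x : Fin (4 * m + 2) × Fin (2 * n + 1),
      (0 : ℤ) ≤ (x.1 : ℤ) ∧ (x.1 : ℤ) < 4 * m + 2 ∧ (0 : ℤ) ≤ (x.2 : ℤ) ∧ (x.2 : ℤ) < 2 * n + 1 := by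
    intro x
    have h1 := x.1.isLt
    have h2 := x.2.isLt
    refine ⟨by positivity, by exact_mod_cast h1, by positivity, by exact_mod_cast h2⟩
  have Flo : ∀ x, ((x.1 : ℤ) + (x.2 : ℤ)) % 2 = 0 → 0 ≤ F x ∧ F x ≤ kA := by
    intro x hx
    obtain ⟨r1, r2, r3, r4⟩ := rng x
    have := hA _ _ r1 r2 r3 r4 hx
    simp only [F]; rw [if_pos hx]; exact this
  have Fhi : ∀ x, ((x.1 : ℤ) + (x.2 : ℤ)) % 2 ≠ 0 → kA < F x ∧ F x ≤ q := by
    intro x hx
    obtain ⟨r1, r2, r3, r4⟩ := rng x
    have := hB _ _ r1 r2 r3 r4 (by omega)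
    simp only [F]; rw [if_neg hx]
    constructor <;> omega
  have Fnn : ∀ x, 0 ≤ F x := by
    intro x
    by_cases hx : ((x.1 : ℤ) + (x.2 : ℤ)) % 2 = 0
    · exact (Flo x hx).1
    · exact le_of_lt (lt_of_le_of_lt hkA (Fhi x hx).1)
  have fF : ∀ x, ((f x : ℕ) : ℤ) = F x := fun x => Int.toNat_of_nonneg (Fnn x)
  -- parity of adjacent vertices
  have par : ∀ x y, (Pr m n).Adj x y →
      (((x.1 : ℤ) + (x.2 : ℤ)) % 2 = 0 ↔ ((y.1 : ℤ) + (y.2 : ℤ)) % 2 ≠ 0) := by
    intro x y hxy
    rw [SimpleGraph.boxProd_adj] at hxy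
    rcases hxy with ⟨h1, h2⟩ | ⟨h1, h2⟩
    · rw [SimpleGraph.cycleGraph_adj] at h1
      rw [← h2]
      rcases h1 with h1 | h1
      · have h3 : x.1 = y.1 + 1 := by rw [← h1]; abel
        have h4 := fin_add_one_val y.1
        rw [← h3] at h4
        rw [h4]
        split_ifs with h5
        · rw [h5]; push_cast; omega
        · push_cast; omega
      · have h3 : y.1 = x.1 + 1 := by rw [← h1]; abel
        have h4 := fin_add_one_val x.1
        rw [← h3] at h4
        rw [h4]
        split_ifs with h5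
        · rw [h5]; push_cast; omega
        · push_cast; omega
    · rw [SimpleGraph.pathGraph_adj] at h1
      rw [← h2]
      omega
  -- injectivity
  have finj : Function.Injective f := by
    intro x y hxy
    have hF : F x = F y := by rw [← fF, ← fF, hxy]
    obtain ⟨r1, r2, r3, r4⟩ := rng x
    obtain ⟨s1, s2, s3, s4⟩ := rng y
    have key : (x.1 : ℤ) = y.1 ∧ (x.2 : ℤ) = y.2 := by
      by_cases hx : ((x.1 : ℤ) + (x.2 : ℤ)) % 2 = 0
      · by_cases hy : ((y.1 : ℤ) + (y.2 : ℤ)) % 2 = 0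
        · simp only [F] at hF
          rw [if_pos hx, if_pos hy] at hF
          exact hinj _ _ _ _ r3 r4 s3 s4 (by rw [hx, hy]) hF
        · exfalso
          have := (Flo x hx).2
          have := (Fhi y hy).1
          omega
      · by_cases hy : ((y.1 : ℤ) + (y.2 : ℤ)) % 2 = 0
        · exfalso
          have := (Flo y hy).2
          have := (Fhi x hx).1
          omega
        · simp only [F] at hF
          rw [if_neg hx, if_neg hy] at hF
          exact hinj _ _ _ _ r3 r4 s3 s4 (by omega) (by omega)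
    obtain ⟨k1, k2⟩ := key
    apply Prod.ext
    · apply Fin.ext; exact_mod_cast k1
    · apply Fin.ext; exact_mod_cast k2
  -- surjectivity onto 1..q
  have surj : ∀ d : ℕ, 1 ≤ d → d ≤ qn → ∃ x y, (Pr m n).Adj x y ∧
      d = ((f x : ℤ) - (f y : ℤ)).natAbs := by
    intro d hd1 hd2
    have hd2' : (d : ℤ) ≤ q := by rw [← hqq]; exact_mod_cast hd2
    have hd1' : (1 : ℤ) ≤ d := by exact_mod_cast hd1
    obtain ⟨i, j, i', j', ⟨a1, a2, a3, a4, a5, a6, a7, a8, hE⟩, hs⟩ :=
      hcov (q - d) (by omega) (by omega)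
    let x : Fin (4 * m + 2) × Fin (2 * n + 1) := (⟨i.toNat, by omega⟩, ⟨j.toNat, by omega⟩)
    let y : Fin (4 * m + 2) × Fin (2 * n + 1) := (⟨i'.toNat, by omega⟩, ⟨j'.toNat, by omega⟩)
    have x1 : ((x.1 : ℕ) : ℤ) = i := Int.toNat_of_nonneg a1
    have x2 : ((x.2 : ℕ) : ℤ) = j := Int.toNat_of_nonneg a3
    have y1 : ((y.1 : ℕ) : ℤ) = i' := Int.toNat_of_nonneg a5
    have y2 : ((y.2 : ℕ) : ℤ) = j' := Int.toNat_of_nonneg a7
    have hadj : (Pr m n).Adj x y := by
      rw [SimpleGraph.boxProd_adj]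
      rcases hE with ⟨e1, e2⟩ | ⟨e1, e2⟩ | ⟨e1, e2, e3⟩
      · right
        constructor
        · rw [SimpleGraph.pathGraph_adj]
          left
          have : ((x.2 : ℕ) : ℤ) + 1 = ((y.2 : ℕ) : ℤ) := by rw [x2, y2, e2]
          exact_mod_cast this
        · apply Fin.ext
          have : ((x.1 : ℕ) : ℤ) = ((y.1 : ℕ) : ℤ) := by rw [x1, y1, e1]
          exact_mod_cast this
      · left
        constructor
        · rw [SimpleGraph.cycleGraph_adj]
          right
          have h5 : y.1 = x.1 + 1 := by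
            apply Fin.ext
            rw [fin_add_one_val]
            have h6 : ((y.1 : ℕ) : ℤ) = ((x.1 : ℕ) : ℤ) + 1 := by rw [x1, y1, e1]
            have h7 := y.1.isLt
            rw [if_neg (by omega)]
            exact_mod_cast h6
          rw [h5]; abel
        · apply Fin.ext
          have : ((x.2 : ℕ) : ℤ) = ((y.2 : ℕ) : ℤ) := by rw [x2, y2, e2]
          exact_mod_cast this
      · left
        constructor
        · rw [SimpleGraph.cycleGraph_adj]
          right
          have h5 : y.1 = x.1 + 1 := by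
            apply Fin.ext
            rw [fin_add_one_val]
            have h6 : ((x.1 : ℕ) : ℤ) = 4 * m + 1 := by rw [x1, e1]
            have h8 : ((y.1 : ℕ) : ℤ) = 0 := by rw [y1, e2]
            rw [if_pos (by omega)]
            exact_mod_cast h8
          rw [h5]; abel
        · apply Fin.ext
          have : ((x.2 : ℕ) : ℤ) = ((y.2 : ℕ) : ℤ) := by rw [x2, y2, e3]
          exact_mod_cast this
    refine ⟨x, y, hadj, ?_⟩
    have hp := par x y hadj
    rw [fF, fF]
    have : |F x - F y| = d := by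
      by_cases hx : ((x.1 : ℤ) + (x.2 : ℤ)) % 2 = 0
      · have hy := hp.mp hx
        simp only [F]
        rw [if_pos hx, if_neg hy, x1, x2, y1, y2]
        rw [show L i j - (q - L i' j') = (L i j + L i' j') - q by ring, hs]
        rw [show q - (d : ℤ) - q = -(d : ℤ) by ring, abs_neg]
        exact abs_of_nonneg (by omega)
      · have hy : ((y.1 : ℤ) + (y.2 : ℤ)) % 2 = 0 := by
          by_contra hcon
          exact hx (hp.mpr hcon)
        simp only [F]
        rw [if_neg hx, if_pos hy, x1, x2, y1, y2]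
        rw [show q - L i j - L i' j' = q - (L i j + L i' j') by ring, hs]
        rw [show q - (q - (d : ℤ)) = (d : ℤ) by ring]
        exact abs_of_nonneg (by omega)
    have h9 : (((F x - F y).natAbs : ℕ) : ℤ) = d := by
      rw [Int.natCast_natAbs]; exact this
    exact_mod_cast h9.symm
  -- the number of edges
  have hcard : (Pr m n).edgeSet.ncard = qn := by
    apply le_antisymm (edges_le m n)
    let φ : Sym2 (Fin (4 * m + 2) × Fin (2 * n + 1)) → ℕ :=
      Sym2.lift ⟨fun x y => ((f x : ℤ) - (f y : ℤ)).natAbs, fun x y => by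
        show ((f x : ℤ) - (f y : ℤ)).natAbs = ((f y : ℤ) - (f x : ℤ)).natAbs
        rw [← Int.natAbs_neg]; congr 1; ring⟩
    have hsub : Set.Icc 1 qn ⊆ φ '' (Pr m n).edgeSet := by
      intro d hd
      obtain ⟨x, y, hxy, hd'⟩ := surj d hd.1 hd.2
      exact ⟨s(x, y), hxy, hd'.symm⟩
    have h1 : (Set.Icc 1 qn).ncard = qn := by
      rw [Set.ncard_eq_toFinset_card', Set.toFinset_Icc, Nat.card_Icc]; omega
    calc qn = (Set.Icc 1 qn).ncard := h1.symm
      _ ≤ (φ '' (Pr m n).edgeSet).ncard := Set.ncard_le_ncard hsub (Set.toFinite _)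
      _ ≤ (Pr m n).edgeSet.ncard := Set.ncard_image_le (Set.toFinite _)
  have sep : ∀ x y, (Pr m n).Adj x y →
      (f x ≤ kA.toNat ∧ kA.toNat < f y) ∨ (f y ≤ kA.toNat ∧ kA.toNat < f x) := by
    intro x y hxy
    have hp := par x y hxy
    have hkk : ((kA.toNat : ℕ) : ℤ) = kA := Int.toNat_of_nonneg hkA
    by_cases hx : ((x.1 : ℤ) + (x.2 : ℤ)) % 2 = 0
    · left
      have g1 := (Flo x hx).2
      have g2 := (Fhi y (hp.mp hx)).1
      rw [← fF] at g1 g2
      constructor <;> omega
    · right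
      have hy : ((y.1 : ℤ) + (y.2 : ℤ)) % 2 = 0 := by
        by_contra hcon
        exact hx (hp.mpr hcon)
      have g1 := (Flo y hy).2
      have g2 := (Fhi x hx).1
      rw [← fF] at g1 g2
      constructor <;> omega
  refine ⟨f, ⟨finj, ?_, ?_⟩, kA.toNat, sep⟩
  · intro v
    rw [hcard]
    have : ((f v : ℕ) : ℤ) ≤ qn := by
      rw [fF, hqq]
      by_cases hx : ((v.1 : ℤ) + (v.2 : ℤ)) % 2 = 0
      · have h1 := (Flo v hx).2
        have h2 : 0 ≤ kB := by
          have := hB 0 1
          by_cases hn0 : (1 : ℤ) < 2 * n + 1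
          · have := this (by norm_num) (by omega) (by norm_num) hn0 (by norm_num)
            omega
          · have h3 := hB 1 0 (by norm_num) (by omega) (by norm_num) (by omega) (by norm_num)
            omega
        omega
      · exact (Fhi v hx).2
    exact_mod_cast this
  · rw [hcard]
    ext d
    constructor
    · rintro ⟨x, y, hxy, hd⟩
      have hs := sep x y hxy
      have hup : ∀ v, f v ≤ qn := by
        intro v
        have : ((f v : ℕ) : ℤ) ≤ qn := by
          rw [fF, hqq]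
          by_cases hx : ((v.1 : ℤ) + (v.2 : ℤ)) % 2 = 0
          · have h1 := (Flo v hx).2
            have h2 : 0 ≤ kB := by
              by_cases hn0 : (1 : ℤ) < 2 * n + 1
              · have := hB 0 1 (by norm_num) (by omega) (by norm_num) hn0 (by norm_num)
                omega
              · have h3 := hB 1 0 (by norm_num) (by omega) (by norm_num) (by omega) (by norm_num)
                omega
            omega
          · exact (Fhi v hx).2
        exact_mod_cast this
      have u1 := hup x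
      have u2 := hup y
      rw [Set.mem_Icc, hd]
      constructor <;> omega
    · rintro ⟨h1, h2⟩
      exact surj d h1 h2

end Pool.Agent.H79.Alpha
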