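import Mathlib
import Pool.Agent.H79.Alpha.Lab5

/-!
Bounds and injectivity of the labels for `b ≥ 5`.
-/

namespace Pool.Agent.H79.Alpha

/-- bounds for the labels. -/
theorem bound5 (m b i j : ℤ) (hm : 2 ≤ m) (hb : 5 ≤ b) (hodd : b % 2 = 1)
    (hi0 : 0 ≤ i) (hi1 : i < 4 * m + 2) (hj0 : 0 ≤ j) (hj1 : j < b) :
    0 ≤ lab5 m b i j ∧
      lab5 m b i j ≤ 4 * (m * b) + b - 2 * m - 1 + (b - 1) / 2 +
        (if (i + j) % 2 = 0 then b else 0) := by
  have f1 : 5 * i ≤ i * b := by nlinarith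
  have f2 : 5 * (4 * m + 1 - i) ≤ 4 * (m * b) + b - i * b := by
    have : 0 ≤ (4 * m + 1 - i) * (b - 5) := mul_nonneg (by omega) (by omega)
    nlinarith
  have f3 : 2 * b + 5 * (m - 2) ≤ m * b := by nlinarith
  have e1 : (2 * m - 1) * b = 2 * (m * b) - b := by ring
  have e2 : (2 * m) * b = 2 * (m * b) := by ring
  by_cases h1 : i = 2 * m - 1
  · subst h1
    rw [lab5_c1]
    split_ifs <;> constructor <;> omega
  by_cases h2 : i = 2 * m
  · subst h2
    rw [lab5_c]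
    split_ifs <;> constructor <;> omega
  unfold lab5 g
  rw [if_neg h1, if_neg h2]
  split_ifs <;> constructor <;> omega

/-- distance between columns. -/
theorem dist_cols (b i i' : ℤ) (hb : 5 ≤ b) (h : i < i') :
    (i' = i + 1 ∧ i' * b = i * b + b) ∨ (i' = i + 2 ∧ i' * b = i * b + 2 * b) ∨
    (i' = i + 3 ∧ i' * b = i * b + 3 * b) ∨
    (i + 4 ≤ i' ∧ i * b + 4 * b + 5 * (i' - i - 4) ≤ i' * b) := by
  rcases eq_or_ne i' (i + 1) with h1 | h1
  · left; refine ⟨h1, ?_⟩; rw [h1]; ring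
  rcases eq_or_ne i' (i + 2) with h2 | h2
  · right; left; refine ⟨h2, ?_⟩; rw [h2]; ring
  rcases eq_or_ne i' (i + 3) with h3 | h3
  · right; right; left; refine ⟨h3, ?_⟩; rw [h3]; ring
  · right; right; right
    refine ⟨by omega, ?_⟩
    have : 0 ≤ (i' - i - 4) * (b - 5) := mul_nonneg (by omega) (by omega)
    nlinarith

/-- simple distance bound. -/
theorem dist_simple (b i i' : ℤ) (hb : 5 ≤ b) (h : i < i') :
    i * b + b + 5 * (i' - i - 1) ≤ i' * b := by
  have : 0 ≤ (i' - i - 1) * (b - 5) := mul_nonneg (by omega) (by omega)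
  nlinarith

/-- low column versus column `2m`. -/
theorem inj5_lo_c (m b i j j' : ℤ) (hb : 5 ≤ b) (hodd : b % 2 = 1)
    (hj0 : 0 ≤ j) (hj1 : j < b) (hj0' : 0 ≤ j') (hj1' : j' < b)
    (hpar : (i + j) % 2 = j' % 2) (hlt : i ≤ 2 * m - 2) :
    lab5 m b i j ≠ lab5 m b (2 * m) j' := by
  have hd := dist_cols b i (2 * m) hb (by omega)
  have e2 : (2 * m) * b = 2 * (m * b) := by ring
  rw [e2] at hd
  rw [lab5_c, lab5_lo m b i j (by omega)]
  generalize i * b = X at *
  generalize m * b = Y at *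
  intro h
  rcases hd with ⟨hd1, hd2⟩ | ⟨hd1, hd2⟩ | ⟨hd1, hd2⟩ | ⟨hd1, hd2⟩
  · omega
  · have hi : i = 2 * m - 2 := by omega
    subst hi
    have q1 : (2 * m - 2 + 1) / 2 = m - 1 := by omega
    have q2 : (2 * m - 2) % 2 = 0 := by omega
    rw [q1, q2] at h
    have q3 : j % 2 = j' % 2 := by omega
    clear hpar
    split_ifs at h <;> omega
  · have hi : i = 2 * m - 3 := by omega
    subst hi
    have q1 : (2 * m - 3 + 1) / 2 = m - 1 := by omega
    have q2 : (2 * m - 3) % 2 = 1 := by omega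
    rw [q1, q2] at h
    have q3 : (1 + j) % 2 = j' % 2 := by omega
    clear hpar
    split_ifs at h <;> omega
  · clear hpar
    have q2 : i % 2 ≤ 1 := by omega
    have q3 : (j + i % 2) / 2 ≤ (b - 1) / 2 := by omega
    have q5 : 4 - 3 * b + (b - 3) / 2 ≤ j' / 2 +
        (if j' ≤ b - 3 then 1 else if j' = b - 2 then 4 - 3 * b else b) := by
      split_ifs <;> omega
    omega

/-- low column versus column `2m-1`. -/
theorem inj5_lo_c1 (m b i j j' : ℤ) (hb : 5 ≤ b) (hodd : b % 2 = 1)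
    (hj0 : 0 ≤ j) (hj1 : j < b) (hj0' : 0 ≤ j')
    (hlt : i ≤ 2 * m - 2) :
    lab5 m b i j < lab5 m b (2 * m - 1) j' := by
  have hd := dist_simple b i (2 * m - 1) hb (by omega)
  have e1 : (2 * m - 1) * b = 2 * (m * b) - b := by ring
  rw [e1] at hd
  rw [lab5_c1, lab5_lo m b i j (by omega)]
  have q2 : i % 2 ≤ 1 := by omega
  have q3 : (j + i % 2) / 2 ≤ (b - 1) / 2 := by omega
  have q5 : 0 ≤ (j' + 1) / 2 +
      (if j' = 0 then b - 1 else if j' = 1 then -1 else if j' = b - 1 then b else 0) := by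
    split_ifs <;> omega
  have q6 : (i + 1) / 2 ≥ i / 2 := by omega
  omega

/-- column `2m-1` versus column `2m`. -/
theorem inj5_c1_c (m b j j' : ℤ) (hb : 5 ≤ b) (hodd : b % 2 = 1)
    (hj0 : 0 ≤ j) (hj1 : j < b) (hj0' : 0 ≤ j') (hj1' : j' < b)
    (hpar : (1 + j) % 2 = j' % 2) :
    lab5 m b (2 * m - 1) j ≠ lab5 m b (2 * m) j' := by
  rw [lab5_c1, lab5_c]
  intro h
  split_ifs at h <;> omega

/-- column `2m-1` or `2m` versus a high column. -/
theorem inj5_c1_hi (m b i' j j' : ℤ) (hb : 5 ≤ b)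
    (hj0 : 0 ≤ j) (hj1 : j < b) (hj0' : 0 ≤ j')
    (hpar : (1 + j) % 2 = (i' + j') % 2) (hlt : 2 * m < i') :
    lab5 m b (2 * m - 1) j < lab5 m b i' j' := by
  have hd := dist_simple b (2 * m) i' hb hlt
  have e2 : (2 * m) * b = 2 * (m * b) := by ring
  rw [e2] at hd
  rw [lab5_c1]
  have q4 : 0 ≤ (j' + i' % 2) / 2 := by omega
  by_cases hp : (i' + j') % 2 = 0
  · rw [lab5_hi0 m b i' j' hlt hp]
    have q5 : (j + 1) / 2 +
      (if j = 0 then b - 1 else if j = 1 then -1 else if j = b - 1 then b else 0) ≤ 2 * b - 1 := by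
      split_ifs <;> omega
    omega
  · rw [lab5_hi1 m b i' j' hlt (by omega)]
    have q6 : j % 2 = 0 := by omega
    have q5 : (j + 1) / 2 +
      (if j = 0 then b - 1 else if j = 1 then -1 else if j = b - 1 then b else 0) ≤ 2 * b - 2 := by
      split_ifs <;> omega
    omega

theorem inj5_c_hi (m b i' j j' : ℤ) (hb : 5 ≤ b) (hodd : b % 2 = 1)
    (hj0 : 0 ≤ j) (hj1 : j < b) (hj0' : 0 ≤ j')
    (hpar : j % 2 = (i' + j') % 2) (hlt : 2 * m < i') :
    lab5 m b (2 * m) j < lab5 m b i' j' := by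
  have hd := dist_simple b (2 * m) i' hb hlt
  have e2 : (2 * m) * b = 2 * (m * b) := by ring
  rw [e2] at hd
  rw [lab5_c]
  have q4 : 0 ≤ (j' + i' % 2) / 2 := by omega
  by_cases hp : (i' + j') % 2 = 0
  · rw [lab5_hi0 m b i' j' hlt hp]
    have q5 : j / 2 + (if j ≤ b - 3 then 1 else if j = b - 2 then 4 - 3 * b else b)
        ≤ (b - 1) / 2 + b := by
      split_ifs <;> omega
    omega
  · rw [lab5_hi1 m b i' j' hlt (by omega)]
    have q6 : j % 2 = 1 := by omega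
    have q5 : j / 2 + (if j ≤ b - 3 then 1 else if j = b - 2 then 4 - 3 * b else b)
        ≤ (b - 1) / 2 := by
      split_ifs <;> omega
    omega

/-- regular columns. -/
theorem inj5_reg (m b i j i' j' : ℤ) (hb : 5 ≤ b)
    (hj0 : 0 ≤ j) (hj1 : j < b) (hj0' : 0 ≤ j')
    (hpar : (i + j) % 2 = (i' + j') % 2) (hlt : i < i')
    (h1 : i ≠ 2 * m - 1) (h2 : i ≠ 2 * m) (h1' : i' ≠ 2 * m - 1) (h2' : i' ≠ 2 * m) :
    lab5 m b i j < lab5 m b i' j' := by
  have hd := dist_simple b i i' hb hlt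
  unfold lab5 g
  rw [if_neg h1, if_neg h2, if_neg h1', if_neg h2']
  have q4 : 0 ≤ (j' + i' % 2) / 2 := by omega
  have q3 : (j + i % 2) / 2 ≤ b / 2 := by omega
  have q7 : (if 2 * m < i ∧ (i + j) % 2 = 0 then b else 0) ≤
      (if 2 * m < i' ∧ (i' + j') % 2 = 0 then b else 0) := by
    split_ifs <;> omega
  generalize (if 2 * m < i ∧ (i + j) % 2 = 0 then b else 0) = s1 at *
  generalize (if 2 * m < i' ∧ (i' + j') % 2 = 0 then b else 0) = s2 at *
  clear hpar
  omega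

theorem inj5_lt (m b i j i' j' : ℤ) (hb : 5 ≤ b) (hodd : b % 2 = 1)
    (hj0 : 0 ≤ j) (hj1 : j < b) (hj0' : 0 ≤ j') (hj1' : j' < b)
    (hpar : (i + j) % 2 = (i' + j') % 2) (hlt : i < i') :
    lab5 m b i j ≠ lab5 m b i' j' := by
  by_cases h1 : i' = 2 * m - 1
  · subst h1
    exact (inj5_lo_c1 m b i j j' hb hodd hj0 hj1 hj0' (by omega)).ne
  by_cases h2 : i' = 2 * m
  · subst h2
    by_cases h3 : i = 2 * m - 1
    · subst h3
      exact inj5_c1_c m b j j' hb hodd hj0 hj1 hj0' hj1' (by omega)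
    · exact inj5_lo_c m b i j j' hb hodd hj0 hj1 hj0' hj1' (by omega) (by omega)
  by_cases h3 : i = 2 * m - 1
  · subst h3
    exact (inj5_c1_hi m b i' j j' hb hj0 hj1 hj0' (by omega) (by omega)).ne
  by_cases h4 : i = 2 * m
  · subst h4
    exact (inj5_c_hi m b i' j j' hb hodd hj0 hj1 hj0' (by omega) (by omega)).ne
  exact (inj5_reg m b i j i' j' hb hj0 hj1 hj0' hpar hlt h3 h4 h1 h2).ne

theorem inj5 (m b i j i' j' : ℤ) (hb : 5 ≤ b) (hodd : b % 2 = 1)
    (hj0 : 0 ≤ j) (hj1 : j < b) (hj0' : 0 ≤ j') (hj1' : j' < b)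
    (hpar : (i + j) % 2 = (i' + j') % 2) (heq : lab5 m b i j = lab5 m b i' j') :
    i = i' ∧ j = j' := by
  rcases lt_trichotomy i i' with h | h | h
  · exact absurd heq (inj5_lt m b i j i' j' hb hodd hj0 hj1 hj0' hj1' hpar h)
  · subst h
    refine ⟨rfl, ?_⟩
    have hp : j % 2 = j' % 2 := by omega
    by_cases h1 : i = 2 * m - 1
    · subst h1
      rw [lab5_c1, lab5_c1] at heq
      clear hpar
      split_ifs at heq <;> omega
    by_cases h2 : i = 2 * m
    · subst h2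
      rw [lab5_c, lab5_c] at heq
      clear hpar
      split_ifs at heq <;> omega
    unfold lab5 g at heq
    rw [if_neg h1, if_neg h2, if_neg h1, if_neg h2] at heq
    have hs : (if 2 * m < i ∧ (i + j) % 2 = 0 then b else 0) =
        (if 2 * m < i ∧ (i + j') % 2 = 0 then b else 0) := by
      rw [hpar]
    rw [hs] at heq
    have h8 : (j + i % 2) / 2 = (j' + i % 2) / 2 := by linarith
    clear heq hs
    omega
  · exact absurd heq.symm
      (inj5_lt m b i' j' i j hb hodd hj0' hj1' hj0 hj1 hpar.symm h)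

end Pool.Agent.H79.Alpha
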