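import Mathlib
import Pool.Agent.H79.Alpha.Lab5

/-!
The labels for `C_{4m+2} × P_3`.
-/

namespace Pool.Agent.H79.Alpha

/-- the labels for `b = 3`. -/
def lab3 (m i j : ℤ) : ℤ :=
  i * 3 - (i + 1) / 2 + (j + i % 2) / 2 + (if 2 * m < i ∧ (i + j) % 2 = 1 then 3 else 0) +
    (if i = 2 * m - 1 then (if j = 0 then 3 else 0) else 0) +
    (if i = 2 * m then (if j = 0 then -1 else if j = 1 then 3 else -7) else 0)

/-- the label in terms of the parity of the column. -/
theorem lab3_even (m k j : ℤ) : lab3 m (2 * k) j = 5 * k + j / 2 +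
    (if m < k ∧ j % 2 = 1 then 3 else 0) +
    (if k = m then (if j = 0 then -1 else if j = 1 then 3 else -7) else 0) := by
  unfold lab3
  rw [if_neg (show ¬ (2 * k = 2 * m - 1) by omega)]
  have e1 : (2 * k * 3 - (2 * k + 1) / 2) = 5 * k := by omega
  have e2 : (2 * k) % 2 = 0 := by omega
  have e3 : (2 * m < 2 * k ∧ (2 * k + j) % 2 = 1) ↔ (m < k ∧ j % 2 = 1) := by omega
  have e4 : (2 * k = 2 * m) ↔ k = m := by omega
  simp only [e1, e2, e3, e4, add_zero]

theorem lab3_odd (m k j : ℤ) : lab3 m (2 * k + 1) j = 5 * k + 2 + (j + 1) / 2 +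
    (if m ≤ k ∧ j % 2 = 0 then 3 else 0) +
    (if k = m - 1 then (if j = 0 then 3 else 0) else 0) := by
  unfold lab3
  rw [if_neg (show ¬ (2 * k + 1 = 2 * m) by omega)]
  have e1 : ((2 * k + 1) * 3 - (2 * k + 1 + 1) / 2) = 5 * k + 2 := by omega
  have e2 : (2 * k + 1) % 2 = 1 := by omega
  have e3 : (2 * m < 2 * k + 1 ∧ (2 * k + 1 + j) % 2 = 1) ↔ (m ≤ k ∧ j % 2 = 0) := by omega
  have e4 : (2 * k + 1 = 2 * m - 1) ↔ k = m - 1 := by omega
  simp only [e1, e2, e3, e4, add_zero]

theorem cover3 (m t : ℤ) (hm : 2 ≤ m) (h0 : 0 ≤ t) (h1 : t < 20 * m + 10) :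
    ∃ i j i' j', IsEdge m 3 i j i' j' ∧ lab3 m i j + lab3 m i' j' = t := by
  have rung : ∀ i j : ℤ, 0 ≤ i → i + 1 < 4 * m + 2 → 0 ≤ j → j < 3 →
      IsEdge m 3 i j (i + 1) j := fun i j a1 a2 a3 a4 =>
    ⟨a1, by omega, a3, a4, by omega, a2, a3, a4, Or.inr (Or.inl ⟨rfl, rfl⟩)⟩
  have path : ∀ i j : ℤ, 0 ≤ i → i < 4 * m + 2 → 0 ≤ j → j + 1 < 3 →
      IsEdge m 3 i j i (j + 1) := fun i j a1 a2 a3 a4 =>
    ⟨a1, a2, a3, by omega, a1, a2, by omega, a4, Or.inl ⟨rfl, rfl⟩⟩
  have close : ∀ j : ℤ, 0 ≤ j → j < 3 → IsEdge m 3 (4 * m + 1) j 0 j := fun j a1 a2 =>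
    ⟨by omega, by omega, a1, a2, by omega, by omega, a1, a2, Or.inr (Or.inr ⟨rfl, rfl, rfl⟩)⟩
  rcases lt_or_ge t (10 * m - 8) with h | h
  · -- low part
    obtain ⟨i, r, hr0, hr1, ht⟩ : ∃ i r : ℤ, 0 ≤ r ∧ r < 5 ∧ t = 5 * i + r :=
      ⟨t / 5, t % 5, by omega, by omega, by omega⟩
    rcases lt_or_ge r 2 with hr | hr
    · refine ⟨i, r, i, r + 1, path _ _ (by omega) (by omega) (by omega) (by omega), ?_⟩
      unfold lab3
      rw [if_neg (show ¬ (2 * m < i ∧ (i + r) % 2 = 1) by omega),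
        if_neg (show ¬ (i = 2 * m - 1) by omega), if_neg (show ¬ (i = 2 * m) by omega),
        if_neg (show ¬ (2 * m < i ∧ (i + (r + 1)) % 2 = 1) by omega)]
      rcases Int.emod_two_eq_zero_or_one i with hi | hi <;> rw [hi] <;> omega
    · refine ⟨i, r - 2, i + 1, r - 2, rung _ _ (by omega) (by omega) (by omega) (by omega), ?_⟩
      unfold lab3
      rw [if_neg (show ¬ (2 * m < i ∧ (i + (r - 2)) % 2 = 1) by omega),
        if_neg (show ¬ (i = 2 * m - 1) by omega), if_neg (show ¬ (i = 2 * m) by omega),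
        if_neg (show ¬ (2 * m < i + 1 ∧ (i + 1 + (r - 2)) % 2 = 1) by omega),
        if_neg (show ¬ (i + 1 = 2 * m - 1) by omega), if_neg (show ¬ (i + 1 = 2 * m) by omega)]
      rcases Int.emod_two_eq_zero_or_one i with hi | hi
      · have hi' : (i + 1) % 2 = 1 := by omega
        rw [hi, hi']; omega
      · have hi' : (i + 1) % 2 = 0 := by omega
        rw [hi, hi']; omega
  rcases lt_or_ge t (10 * m + 8) with h' | h'
  · -- middle part
    obtain ⟨o, ho⟩ : ∃ o : ℤ, t = 10 * m + 2 + o := ⟨t - (10 * m + 2), by ring⟩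
    have hlo : -10 ≤ o := by omega
    have hhi : o ≤ 5 := by omega
    have k1 : (2 * m - 2 + 1) = 2 * m - 1 := by ring
    have k2 : (2 * m - 1 + 1) = 2 * m := by ring
    interval_cases o
    · refine ⟨2 * m - 1, 2, 2 * m - 1 + 1, 2, rung _ _ (by omega) (by omega) (by omega) (by omega), ?_⟩
      unfold lab3; split_ifs <;> omega
    · refine ⟨2 * m - 2, 1, 2 * m - 2 + 1, 1, rung _ _ (by omega) (by omega) (by omega) (by omega), ?_⟩
      unfold lab3; split_ifs <;> omega
    · refine ⟨2 * m - 2, 2, 2 * m - 2 + 1, 2, rung _ _ (by omega) (by omega) (by omega) (by omega), ?_⟩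
      unfold lab3; split_ifs <;> omega
    · refine ⟨2 * m - 2, 0, 2 * m - 2 + 1, 0, rung _ _ (by omega) (by omega) (by omega) (by omega), ?_⟩
      unfold lab3; split_ifs <;> omega
    · refine ⟨2 * m - 1, 1, 2 * m - 1, 1 + 1, path _ _ (by omega) (by omega) (by omega) (by omega), ?_⟩
      unfold lab3; split_ifs <;> omega
    · refine ⟨2 * m, 1, 2 * m, 1 + 1, path _ _ (by omega) (by omega) (by omega) (by omega), ?_⟩
      unfold lab3; split_ifs <;> omega
    · refine ⟨2 * m - 1, 0, 2 * m - 1, 0 + 1, path _ _ (by omega) (by omega) (by omega) (by omega), ?_⟩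
      unfold lab3; split_ifs <;> omega
    · refine ⟨2 * m - 1, 0, 2 * m - 1 + 1, 0, rung _ _ (by omega) (by omega) (by omega) (by omega), ?_⟩
      unfold lab3; split_ifs <;> omega
    · refine ⟨2 * m, 2, 2 * m + 1, 2, rung _ _ (by omega) (by omega) (by omega) (by omega), ?_⟩
      unfold lab3; split_ifs <;> omega
    · refine ⟨2 * m - 1, 1, 2 * m - 1 + 1, 1, rung _ _ (by omega) (by omega) (by omega) (by omega), ?_⟩
      unfold lab3; split_ifs <;> omega
    · refine ⟨2 * m, 0, 2 * m, 0 + 1, path _ _ (by omega) (by omega) (by omega) (by omega), ?_⟩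
      unfold lab3; split_ifs <;> omega
    · refine ⟨4 * m + 1, 1, 0, 1, close _ (by omega) (by omega), ?_⟩
      unfold lab3; split_ifs <;> omega
    · refine ⟨2 * m, 0, 2 * m + 1, 0, rung _ _ (by omega) (by omega) (by omega) (by omega), ?_⟩
      unfold lab3; split_ifs <;> omega
    · refine ⟨4 * m + 1, 0, 0, 0, close _ (by omega) (by omega), ?_⟩
      unfold lab3; split_ifs <;> omega
    · refine ⟨2 * m, 1, 2 * m + 1, 1, rung _ _ (by omega) (by omega) (by omega) (by omega), ?_⟩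
      unfold lab3; split_ifs <;> omega
    · refine ⟨4 * m + 1, 2, 0, 2, close _ (by omega) (by omega), ?_⟩
      unfold lab3; split_ifs <;> omega
  · -- high part
    obtain ⟨i, r, hr0, hr1, ht⟩ : ∃ i r : ℤ, 0 ≤ r ∧ r < 5 ∧ t - 3 = 5 * i + r :=
      ⟨(t - 3) / 5, (t - 3) % 5, by omega, by omega, by omega⟩
    have hi0 : 2 * m + 1 ≤ i := by omega
    have hi1 : i ≤ 4 * m + 1 := by omega
    obtain ⟨k, hk⟩ : ∃ k : ℤ, i = 2 * k ∨ i = 2 * k + 1 := ⟨i / 2, by omega⟩
    rcases hk with hk | hk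
    · subst hk
      have hk1 : m < k := by omega
      have hk2 : k ≠ m := by omega
      have hk3 : k ≠ m - 1 := by omega
      have hk4 : m ≤ k := by omega
      interval_cases r
      · refine ⟨2 * k, 0, 2 * k, 0 + 1, path _ _ (by omega) (by omega) (by omega) (by omega), ?_⟩
        rw [lab3_even, lab3_even]; simp [hk1, hk2]; omega
      · refine ⟨2 * k, 1, 2 * k, 1 + 1, path _ _ (by omega) (by omega) (by omega) (by omega), ?_⟩
        rw [lab3_even, lab3_even]; simp [hk1, hk2]; omega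
      · refine ⟨2 * k, 0, 2 * k + 1, 0, rung _ _ (by omega) (by omega) (by omega) (by omega), ?_⟩
        rw [lab3_even, lab3_odd]; simp [hk2, hk3, hk4]; omega
      · refine ⟨2 * k, 1, 2 * k + 1, 1, rung _ _ (by omega) (by omega) (by omega) (by omega), ?_⟩
        rw [lab3_even, lab3_odd]; simp [hk1, hk2, hk3]; omega
      · refine ⟨2 * k, 2, 2 * k + 1, 2, rung _ _ (by omega) (by omega) (by omega) (by omega), ?_⟩
        rw [lab3_even, lab3_odd]; simp [hk2, hk3, hk4]; omega
    · subst hk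
      have hk1 : m < k + 1 := by omega
      have hk2 : k + 1 ≠ m := by omega
      have hk3 : k ≠ m - 1 := by omega
      have hk4 : m ≤ k := by omega
      have hk5 : 2 * k + 1 + 1 = 2 * (k + 1) := by ring
      interval_cases r
      · refine ⟨2 * k + 1, 0, 2 * k + 1, 0 + 1, path _ _ (by omega) (by omega) (by omega) (by omega), ?_⟩
        rw [lab3_odd, lab3_odd]; simp [hk4, hk3]; omega
      · refine ⟨2 * k + 1, 1, 2 * k + 1, 1 + 1, path _ _ (by omega) (by omega) (by omega) (by omega), ?_⟩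
        rw [lab3_odd, lab3_odd]; simp [hk4, hk3]; omega
      · refine ⟨2 * k + 1, 0, 2 * k + 1 + 1, 0, rung _ _ (by omega) (by omega) (by omega) (by omega), ?_⟩
        rw [hk5, lab3_even, lab3_odd]; simp [hk2, hk3, hk4]; omega
      · refine ⟨2 * k + 1, 1, 2 * k + 1 + 1, 1, rung _ _ (by omega) (by omega) (by omega) (by omega), ?_⟩
        rw [hk5, lab3_even, lab3_odd]; simp [hk1, hk2, hk3]; omega
      · refine ⟨2 * k + 1, 2, 2 * k + 1 + 1, 2, rung _ _ (by omega) (by omega) (by omega) (by omega), ?_⟩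
        rw [hk5, lab3_even, lab3_odd]; simp [hk2, hk3, hk4]; omega

theorem bound3 (m i j : ℤ) (hm : 2 ≤ m)
    (hi0 : 0 ≤ i) (hi1 : i < 4 * m + 2) (hj0 : 0 ≤ j) (hj1 : j < 3) :
    0 ≤ lab3 m i j ∧
      lab3 m i j ≤ (if (i + j) % 2 = 0 then 10 * m + 3 else 10 * m + 6) := by
  obtain ⟨k, hk⟩ : ∃ k : ℤ, i = 2 * k ∨ i = 2 * k + 1 := ⟨i / 2, by omega⟩
  rcases hk with hk | hk <;> subst hk
  · rw [lab3_even]
    have e : (2 * k + j) % 2 = j % 2 := by omega
    rw [e]
    interval_cases j <;> constructor <;> norm_num <;> (try split_ifs) <;> omega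
  · rw [lab3_odd]
    have e : (2 * k + 1 + j) % 2 = (1 + j) % 2 := by omega
    rw [e]
    interval_cases j <;> constructor <;> norm_num <;> (try split_ifs) <;> omega

theorem inj3 (m i j i' j' : ℤ)
    (hj0 : 0 ≤ j) (hj1 : j < 3) (hj0' : 0 ≤ j') (hj1' : j' < 3)
    (hpar : (i + j) % 2 = (i' + j') % 2) (heq : lab3 m i j = lab3 m i' j') :
    i = i' ∧ j = j' := by
  obtain ⟨k, hk⟩ : ∃ k : ℤ, i = 2 * k ∨ i = 2 * k + 1 := ⟨i / 2, by omega⟩
  obtain ⟨k', hk'⟩ : ∃ k' : ℤ, i' = 2 * k' ∨ i' = 2 * k' + 1 := ⟨i' / 2, by omega⟩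
  rcases hk with hk | hk <;> rcases hk' with hk' | hk' <;> subst hk <;> subst hk'
  · rw [lab3_even, lab3_even] at heq
    have hp : j % 2 = j' % 2 := by omega
    clear hpar
    interval_cases j <;> interval_cases j' <;>
      first
        | (exfalso; revert hp; norm_num; done)
        | (split_ifs at heq <;> omega)
  · rw [lab3_even, lab3_odd] at heq
    have hp : j % 2 = (j' + 1) % 2 := by omega
    clear hpar
    interval_cases j <;> interval_cases j' <;>
      first
        | (exfalso; revert hp; norm_num; done)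
        | (split_ifs at heq <;> omega)
  · rw [lab3_even, lab3_odd] at heq
    have hp : (j + 1) % 2 = j' % 2 := by omega
    clear hpar
    interval_cases j <;> interval_cases j' <;>
      first
        | (exfalso; revert hp; norm_num; done)
        | (split_ifs at heq <;> omega)
  · rw [lab3_odd, lab3_odd] at heq
    have hp : j % 2 = j' % 2 := by omega
    clear hpar
    interval_cases j <;> interval_cases j' <;>
      first
        | (exfalso; revert hp; norm_num; done)
        | (split_ifs at heq <;> omega)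

end Pool.Agent.H79.Alpha
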