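import Mathlib
import Pool.Agent.H79.Alpha.Lab5

/-!
The middle block of edge sums for `b ≥ 5`.
-/

namespace Pool.Agent.H79.Alpha

/-- the middle block: `t = T + o`, `T = (2b-1)(2m) + b - 1`, `-(4b-2) ≤ o ≤ 2b-1`. -/
theorem cover5_mid (m b o : ℤ) (hm : 2 ≤ m) (hb : 5 ≤ b) (hodd : b % 2 = 1)
    (h0 : -(4 * b - 2) ≤ o) (h1 : o ≤ 2 * b - 1) :
    ∃ i j i' j', IsEdge m b i j i' j' ∧
      lab5 m b i j + lab5 m b i' j' = 4 * (m * b) - 2 * m + b - 1 + o := by
  -- helper constructors for the edge types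
  have rung : ∀ i j : ℤ, 0 ≤ i → i + 1 < 4 * m + 2 → 0 ≤ j → j < b →
      IsEdge m b i j (i + 1) j := fun i j a1 a2 a3 a4 =>
    ⟨a1, by omega, a3, a4, by omega, a2, a3, a4, Or.inr (Or.inl ⟨rfl, rfl⟩)⟩
  have path : ∀ i j : ℤ, 0 ≤ i → i < 4 * m + 2 → 0 ≤ j → j + 1 < b →
      IsEdge m b i j i (j + 1) := fun i j a1 a2 a3 a4 =>
    ⟨a1, a2, a3, by omega, a1, a2, by omega, a4, Or.inl ⟨rfl, rfl⟩⟩
  have c2 : 2 * m - 2 + 1 = 2 * m - 1 := by ring
  have c1 : 2 * m - 1 + 1 = 2 * m := by ring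
  rcases lt_or_ge o (-3 * b + 4) with ho | ho
  · -- o < -3b+4
    rcases eq_or_ne o (-4 * b + 2) with h | h
    · refine ⟨2 * m - 2, 1, 2 * m - 2 + 1, 1, rung _ _ (by omega) (by omega) (by omega) (by omega), ?_⟩
      rw [c2, lab5_cm2, lab5_c1]; split_ifs <;> omega
    rcases eq_or_ne o (-4 * b + 3) with h | h
    · refine ⟨2 * m - 1, b - 2, 2 * m - 1 + 1, b - 2, rung _ _ (by omega) (by omega) (by omega) (by omega), ?_⟩
      rw [c1, lab5_c1, lab5_c]; split_ifs <;> omega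
    rcases le_or_gt o (-3 * b) with h' | h'
    · refine ⟨2 * m - 2, o + 4 * b - 2, 2 * m - 2 + 1, o + 4 * b - 2, rung _ _ (by omega) (by omega) (by omega) (by omega), ?_⟩
      rw [c2, lab5_cm2, lab5_c1]; split_ifs <;> omega
    rcases eq_or_ne o (-3 * b + 1) with h | h
    · refine ⟨2 * m - 2, 0, 2 * m - 2 + 1, 0, rung _ _ (by omega) (by omega) (by omega) (by omega), ?_⟩
      rw [c2, lab5_cm2, lab5_c1]; split_ifs <;> omega
    rcases eq_or_ne o (-3 * b + 2) with h | h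
    · refine ⟨2 * m - 1, 1, 2 * m - 1, 1 + 1, path _ _ (by omega) (by omega) (by omega) (by omega), ?_⟩
      rw [lab5_c1, lab5_c1]; split_ifs <;> omega
    · refine ⟨2 * m, b - 3, 2 * m, b - 3 + 1, path _ _ (by omega) (by omega) (by omega) (by omega), ?_⟩
      rw [lab5_c, lab5_c]; split_ifs <;> omega
  rcases lt_or_ge o (-2 * b + 4) with ho2 | ho2
  · rcases le_or_gt o (-2 * b - 1) with h | h
    · refine ⟨2 * m - 1, o + 3 * b - 2, 2 * m - 1, o + 3 * b - 2 + 1, path _ _ (by omega) (by omega) (by omega) (by omega), ?_⟩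
      rw [lab5_c1, lab5_c1]; split_ifs <;> omega
    rcases eq_or_ne o (-2 * b) with h | h
    · refine ⟨2 * m - 1, 0, 2 * m - 1, 0 + 1, path _ _ (by omega) (by omega) (by omega) (by omega), ?_⟩
      rw [lab5_c1, lab5_c1]; split_ifs <;> omega
    rcases eq_or_ne o (-2 * b + 1) with h | h
    · refine ⟨2 * m - 2, b - 1, 2 * m - 2 + 1, b - 1, rung _ _ (by omega) (by omega) (by omega) (by omega), ?_⟩
      rw [c2, lab5_cm2, lab5_c1]; split_ifs <;> omega
    rcases eq_or_ne o (-2 * b + 2) with h | h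
    · refine ⟨2 * m - 1, 1, 2 * m - 1 + 1, 1, rung _ _ (by omega) (by omega) (by omega) (by omega), ?_⟩
      rw [c1, lab5_c1, lab5_c]; split_ifs <;> omega
    · refine ⟨2 * m, b - 2, 2 * m, b - 2 + 1, path _ _ (by omega) (by omega) (by omega) (by omega), ?_⟩
      rw [lab5_c, lab5_c]; split_ifs <;> omega
  rcases lt_or_ge o 0 with ho3 | ho3
  · rcases le_or_gt o (-b - 1) with h | h
    · refine ⟨2 * m - 1, o + 2 * b - 2, 2 * m - 1 + 1, o + 2 * b - 2, rung _ _ (by omega) (by omega) (by omega) (by omega), ?_⟩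
      rw [c1, lab5_c1, lab5_c]; split_ifs <;> omega
    rcases eq_or_ne o (-b) with h | h
    · refine ⟨2 * m - 1, b - 2, 2 * m - 1, b - 2 + 1, path _ _ (by omega) (by omega) (by omega) (by omega), ?_⟩
      rw [lab5_c1, lab5_c1]; split_ifs <;> omega
    rcases eq_or_ne o (-b + 1) with h | h
    · refine ⟨2 * m - 1, 0, 2 * m - 1 + 1, 0, rung _ _ (by omega) (by omega) (by omega) (by omega), ?_⟩
      rw [c1, lab5_c1, lab5_c]; split_ifs <;> omega
    rcases eq_or_ne o (-b + 2) with h | h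
    · refine ⟨2 * m, b - 2, 2 * m + 1, b - 2, rung _ _ (by omega) (by omega) (by omega) (by omega), ?_⟩
      rw [lab5_c, lab5_cp1]; split_ifs <;> omega
    · refine ⟨2 * m, o + b - 3, 2 * m, o + b - 3 + 1, path _ _ (by omega) (by omega) (by omega) (by omega), ?_⟩
      rw [lab5_c, lab5_c]; split_ifs <;> omega
  -- o ≥ 0
  rcases Int.emod_two_eq_zero_or_one o with he | he
  · -- closings
    rcases le_or_gt o (b - 1) with h | h
    · refine ⟨4 * m + 1, o, 0, o, ⟨by omega, by omega, by omega, by omega, by omega, by omega, by omega, by omega, Or.inr (Or.inr ⟨rfl, rfl, rfl⟩)⟩, ?_⟩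
      rw [lab5_last m b _ (by omega), lab5_zero m b _ (by omega)]; split_ifs <;> omega
    · refine ⟨4 * m + 1, o - b, 0, o - b, ⟨by omega, by omega, by omega, by omega, by omega, by omega, by omega, by omega, Or.inr (Or.inr ⟨rfl, rfl, rfl⟩)⟩, ?_⟩
      rw [lab5_last m b _ (by omega), lab5_zero m b _ (by omega)]; split_ifs <;> omega
  · rcases le_or_gt o (b - 2) with h | h
    · refine ⟨2 * m, o - 1, 2 * m + 1, o - 1, rung _ _ (by omega) (by omega) (by omega) (by omega), ?_⟩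
      rw [lab5_c, lab5_cp1]; split_ifs <;> omega
    rcases eq_or_ne o b with h' | h'
    · refine ⟨2 * m - 1, b - 1, 2 * m - 1 + 1, b - 1, rung _ _ (by omega) (by omega) (by omega) (by omega), ?_⟩
      rw [c1, lab5_c1, lab5_c]; split_ifs <;> omega
    rcases le_or_gt o (2 * b - 3) with h'' | h''
    · refine ⟨2 * m, o - 1 - b, 2 * m + 1, o - 1 - b, rung _ _ (by omega) (by omega) (by omega) (by omega), ?_⟩
      rw [lab5_c, lab5_cp1]; split_ifs <;> omega
    · refine ⟨2 * m, b - 1, 2 * m + 1, b - 1, rung _ _ (by omega) (by omega) (by omega) (by omega), ?_⟩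
      rw [lab5_c, lab5_cp1]; split_ifs <;> omega

end Pool.Agent.H79.Alpha
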